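import Pool.Agent.MNV.Stmts

/-!
Row HXT (squad MNV): the height in an extension.
-/

set_option autoImplicit false

namespace Pool.Agent.MNV.H41

open NumberField Pool.Agent.MNV

/-- The infinite part of the height as a product over the embeddings. -/
theorem inf_prod {K : Type} [Field K] [NumberField K] {ι : Type} (y : ι → K) :
    ∏ v : InfinitePlace K, (⨆ i, v (y i)) ^ v.mult = ∏ φ : K →+* ℂ, ⨆ i, ‖φ (y i)‖ := by
  classical
  rw [← Finset.prod_fiberwise Finset.univ InfinitePlace.mk (fun φ : K →+* ℂ => ⨆ i, ‖φ (y i)‖)]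
  refine Finset.prod_congr rfl fun w _ => ?_
  have (φ) (hφ : φ ∈ ({φ | InfinitePlace.mk φ = w} : Finset (K →+* ℂ))) :
      (⨆ i, ‖φ (y i)‖) = ⨆ i, w (y i) := by
    refine iSup_congr fun i => ?_
    rw [← (Finset.mem_filter.mp hφ).2, InfinitePlace.apply]
  rw [Finset.prod_congr rfl this, Finset.prod_const, InfinitePlace.card_filter_mk_eq]

/-- Every embedding has `[L : K]` extensions. -/
theorem ext_prod (K L : Type) [Field K] [NumberField K] [Field L] [NumberField L] [Algebra K L]
    (G : (K →+* ℂ) → ℝ) : ∏ τ : L →+* ℂ, G (τ.comp (algebraMap K L)) =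
      (∏ σ : K →+* ℂ, G σ) ^ Module.finrank K L := by
  classical
  rw [← Finset.prod_fiberwise Finset.univ (fun τ : L →+* ℂ => τ.comp (algebraMap K L)),
    ← Finset.prod_pow]
  refine Finset.prod_congr rfl fun σ _ => ?_
  have (τ) (hτ : τ ∈ ({τ | τ.comp (algebraMap K L) = σ} : Finset (L →+* ℂ))) :
      G (τ.comp (algebraMap K L)) = G σ := by rw [(Finset.mem_filter.mp hτ).2]
  rw [Finset.prod_congr rfl this, Finset.prod_const]
  congr 1
  letI : Algebra K ℂ := σ.toAlgebra
  have h1 : Fintype.card (L →ₐ[K] ℂ) = Module.finrank K L := AlgHom.card K L ℂ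
  rw [← h1, ← Fintype.card_subtype]
  refine Fintype.card_congr
    { toFun := fun τ => { τ.1 with commutes' := fun r => RingHom.congr_fun τ.2 r }
      invFun := fun f => ⟨f.toRingHom, RingHom.ext fun r => f.commutes r⟩
      left_inv := fun τ => rfl
      right_inv := fun f => rfl }

theorem height_int {K : Type} [Field K] [NumberField K] {ι : Type} [Finite ι] (a : ι → 𝓞 K)
    (ha : a ≠ 0) : Height.mulHeight (fun i => (a i : K)) =
      (∏ φ : K →+* ℂ, ⨆ i, ‖φ (a i)‖) * ((Ideal.span (Set.range a)).absNorm : ℝ)⁻¹ := by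
  have hy : (fun i => (a i : K)) ≠ 0 := by
    obtain ⟨i, hi⟩ := Function.ne_iff.1 ha
    exact Function.ne_iff.2 ⟨i, by simpa using hi⟩
  rw [NumberField.mulHeight_eq hy, inf_prod (fun i => (a i : K))]
  congr 1
  have h1 := NumberField.absNorm_mul_finprod_finitePlace_eq_one ha
  exact eq_inv_of_mul_eq_one_right h1

/-- HXT. -/
theorem hxt : HxtStmt := by
  intro K L _ _ _ _ _ ι _ y hy
  obtain ⟨b, hb⟩ := IsLocalization.exist_integer_multiples_of_finite
    (nonZeroDivisors (𝓞 K)) y
  choose a ha using hb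
  have hb0 : ((b : 𝓞 K) : K) ≠ 0 := by
    have h1 : (b : 𝓞 K) ≠ 0 := nonZeroDivisors.ne_zero b.2
    exact (NumberField.RingOfIntegers.coe_ne_zero_iff).2 h1
  have ha' : (fun i => (a i : K)) = ((b : 𝓞 K) : K) • y := by
    funext i
    exact (ha i).trans (Algebra.smul_def _ _)
  have ha0 : a ≠ 0 := by
    rintro rfl
    apply hy
    have h1 : ((b : 𝓞 K) : K) • y = 0 := by
      rw [← ha']
      funext i
      simp
    exact (smul_eq_zero.1 h1).resolve_left hb0
  -- the extension
  have hc0 : algebraMap K L ((b : 𝓞 K) : K) ≠ 0 := by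
    rw [Ne, map_eq_zero]
    exact hb0
  have haL : (fun i => ((algebraMap (𝓞 K) (𝓞 L) (a i) : 𝓞 L) : L)) =
      algebraMap K L ((b : 𝓞 K) : K) • fun i => algebraMap K L (y i) := by
    funext i
    have h1 : ((algebraMap (𝓞 K) (𝓞 L) (a i) : 𝓞 L) : L) = algebraMap K L (a i : K) := rfl
    rw [h1, congrFun ha' i]
    simp
  have haL0 : (fun i => (algebraMap (𝓞 K) (𝓞 L) (a i) : 𝓞 L)) ≠ 0 := by
    obtain ⟨i, hi⟩ := Function.ne_iff.1 ha0
    refine Function.ne_iff.2 ⟨i, ?_⟩
    intro h0
    apply hi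
    have h1 : algebraMap K L (a i : K) = 0 := by
      have := congrArg (fun z : 𝓞 L => (z : L)) h0
      simpa using this
    have h2 : (a i : K) = 0 := (map_eq_zero _).1 h1
    exact (NumberField.RingOfIntegers.coe_eq_zero_iff).1 h2
  have e1 : Height.mulHeight y = Height.mulHeight (fun i => (a i : K)) := by
    rw [ha', Height.mulHeight_smul_eq_mulHeight y hb0]
  have e2 : Height.mulHeight (fun i => algebraMap K L (y i)) =
      Height.mulHeight (fun i => ((algebraMap (𝓞 K) (𝓞 L) (a i) : 𝓞 L) : L)) := by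
    rw [haL, Height.mulHeight_smul_eq_mulHeight _ hc0]
  rw [e1, e2, height_int a ha0, height_int _ haL0, mul_pow]
  congr 1
  · rw [← ext_prod K L (fun φ => ⨆ i, ‖φ (a i)‖)]
    rfl
  · rw [inv_pow]
    congr 1
    have h1 : Ideal.span (Set.range fun i => (algebraMap (𝓞 K) (𝓞 L) (a i) : 𝓞 L)) =
        (Ideal.span (Set.range a)).map (algebraMap (𝓞 K) (𝓞 L)) := by
      rw [Ideal.map_span, ← Set.range_comp]
      rfl
    rw [h1, Ideal.absNorm_algebraMap]
    push_cast
    congr 1
    first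
      | exact IsFractionRing.finrank_eq (𝓞 K) K (𝓞 L) L
      | exact (IsFractionRing.finrank_eq (𝓞 K) K (𝓞 L) L).symm

end Pool.Agent.MNV.H41
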